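import Pool.Agent.U863.CT.Fin
import Pool.Agent.N896.TT_FC

/-!
# Contracting groups of tree automorphisms contain no nonabelian free groups

Owner helper9. The theorem is due to Nekrashevych; the proof here counts positive words.
-/

set_option autoImplicit false

namespace Pool.Agent.U9.CG

open Pool.Agent.Y462.SS Pool.Agent.U863.CT

/-- commuting nontrivial elements of a free group have a common nontrivial power -/
theorem common_power {α : Type} (g h : FreeGroup α) (hg : g ≠ 1) (hh : h ≠ 1)
    (hc : g * h = h * g) : ∃ s t : ℤ, s ≠ 0 ∧ t ≠ 0 ∧ g ^ s = h ^ t := by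
  have hcomm : ∀ x ∈ Subgroup.closure ({g, h} : Set (FreeGroup α)),
      ∀ y ∈ Subgroup.closure ({g, h} : Set (FreeGroup α)), x * y = y * x := by
    intro x hx y hy
    have h1 : ∀ a ∈ ({g, h} : Set (FreeGroup α)), ∀ b ∈ ({g, h} : Set (FreeGroup α)),
        a * b = b * a := by
      rintro a (rfl | rfl) b (rfl | rfl)
      · rfl
      · exact hc
      · exact hc.symm
      · rfl
    have h2 := Subgroup.closure_le_centralizer_centralizer ({g, h} : Set (FreeGroup α))
    have h3 : Subgroup.closure ({g, h} : Set (FreeGroup α)) ≤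
        Subgroup.centralizer ({g, h} : Set (FreeGroup α)) := by
      rw [Subgroup.closure_le]
      intro a ha
      rw [SetLike.mem_coe, Subgroup.mem_centralizer_iff]
      intro b hb
      exact h1 b hb a ha
    have h4 := (Subgroup.mem_centralizer_iff.1 (h2 hx)) y (h3 hy)
    exact h4.symm
  have hM : ¬ ∃ f : FreeGroup (Fin 2) →* (Subgroup.closure ({g, h} : Set (FreeGroup α))),
      Function.Injective f := by
    rintro ⟨f, hf⟩
    have h1 : (FreeGroup.of (0 : Fin 2)) * FreeGroup.of 1 = FreeGroup.of 1 * FreeGroup.of 0 := by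
      apply hf
      rw [map_mul, map_mul]
      exact Subtype.ext (hcomm _ (f _).2 _ (f _).2)
    have h2 := congrArg FreeGroup.toWord h1
    revert h2
    decide
  obtain ⟨c, hcM⟩ := Pool.Agent.N896.TT_FC.main α _ hM
  have h1 : g ∈ Subgroup.zpowers c := hcM ▸ Subgroup.subset_closure (by simp)
  have h2 : h ∈ Subgroup.zpowers c := hcM ▸ Subgroup.subset_closure (by simp)
  obtain ⟨p, rfl⟩ := Subgroup.mem_zpowers_iff.1 h1
  obtain ⟨q, rfl⟩ := Subgroup.mem_zpowers_iff.1 h2
  refine ⟨q, p, ?_, ?_, ?_⟩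
  · rintro rfl
    exact hh (zpow_zero c)
  · rintro rfl
    exact hg (zpow_zero c)
  · rw [← zpow_mul, ← zpow_mul, mul_comm]

variable {X : Type}

theorem act_toWr (g : T X) (v : List X) : act (toWr X) g v = g.1 v := by
  induction v generalizing g with
  | nil => rw [nil_eq]; rfl
  | cons x v ih =>
    rw [cons_eq]
    change (toWr X g).p x :: act (toWr X) ((toWr X g).s x) v = _
    rw [ih]
    rfl

theorem len (g : T X) (v : List X) : (g.1 v).length = v.length := g.2.1 v

/-- an automorphism with trivial action and trivial sections at a level -/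
theorem eq_one_of_level (n : ℕ) : ∀ g : T X, (∀ v : List X, v.length = n → g.1 v = v) →
    (∀ v : List X, v.length = n → secw (toWr X) g v = 1) → g = 1 := by
  induction n with
  | zero =>
    intro g _ h
    exact h [] rfl
  | succ n ih =>
    intro g h1 h2
    refine T_ext ?_ fun x => ?_
    · apply Equiv.ext
      intro x
      have h3 := h1 (x :: List.replicate n x) (by simp)
      rw [cons_eq] at h3
      exact (List.cons.inj h3).1
    · rw [sec_one]
      refine ih _ (fun v hv => ?_) fun v hv => ?_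
      · have h3 := h1 (x :: v) (by simp [hv])
        rw [cons_eq] at h3
        exact (List.cons.inj h3).2
      · exact h2 (x :: v) (by simp [hv])

section hom

variable {F : Type} [Group F] (f : F →* T X)

/-- the elements acting trivially on the words of length `n` -/
def Lev (n : ℕ) : Subgroup F where
  carrier := {g | ∀ v : List X, v.length = n → (f g).1 v = v}
  one_mem' := by
    intro v _
    rw [map_one]
    rfl
  mul_mem' := by
    intro a b ha hb v hv
    rw [map_mul]
    change (f a).1 ((f b).1 v) = v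
    rw [hb v hv, ha v hv]
  inv_mem' := by
    intro a ha v hv
    rw [map_inv]
    change (f a).1⁻¹ v = v
    rw [Equiv.Perm.inv_eq_iff_eq]
    exact (ha v hv).symm

/-- the elements fixing `v` with trivial section there -/
def Cyl (v : List X) : Subgroup F where
  carrier := {g | (f g).1 v = v ∧ secw (toWr X) (f g) v = 1}
  one_mem' := by
    rw [Set.mem_ofPred_eq, map_one]
    exact ⟨rfl, secw_one _ _⟩
  mul_mem' := by
    rintro a b ⟨ha, ha'⟩ ⟨hb, hb'⟩
    rw [Set.mem_ofPred_eq, map_mul]
    refine ⟨?_, ?_⟩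
    · change (f a).1 ((f b).1 v) = v
      rw [hb, ha]
    · rw [secw_mul, act_toWr, hb, ha', hb', one_mul]
  inv_mem' := by
    rintro a ⟨ha, ha'⟩
    have h1 : (f a⁻¹).1 v = v := by
      rw [map_inv]
      change (f a).1⁻¹ v = v
      rw [Equiv.Perm.inv_eq_iff_eq]
      exact ha.symm
    refine ⟨h1, ?_⟩
    have h2 := secw_mul (toWr X) (f a⁻¹) (f a) v
    rw [← map_mul, inv_mul_cancel, map_one, secw_one, act_toWr, ha, ha', mul_one] at h2
    exact h2.symm

theorem cyl_conj {n : ℕ} {v : List X} (hv : v.length = n) {g h : F} (hg : g ∈ Cyl f v)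
    (hh : h ∈ Lev f n) : h * g * h⁻¹ ∈ Cyl f v := by
  obtain ⟨hg1, hg2⟩ := hg
  have hh1 : (f h).1 v = v := hh v hv
  have hh2 : (f h⁻¹).1 v = v := (inv_mem hh) v hv
  refine ⟨?_, ?_⟩
  · rw [map_mul, map_mul]
    change (f h).1 ((f g).1 ((f h⁻¹).1 v)) = v
    rw [hh2, hg1, hh1]
  · rw [map_mul, map_mul, secw_mul, secw_mul, act_toWr, act_toWr, hh2, hg1, hg2, mul_one]
    have h2 := secw_mul (toWr X) (f h) (f h⁻¹) v
    rw [← map_mul, mul_inv_cancel, map_one, secw_one, act_toWr, hh2] at h2
    exact h2.symm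

theorem finite_words [Finite X] (n : ℕ) : Finite {v : List X // v.length = n} :=
  List.finite_length_eq X n

/-- powers of an element act trivially on a level -/
theorem pow_lev [Finite X] (n : ℕ) (g : F) : ∃ m : ℕ, 0 < m ∧ g ^ m ∈ Lev f n := by
  have := finite_words (X := X) n
  obtain ⟨i, j, hij, h⟩ := Finite.exists_ne_map_eq_of_infinite
    (fun m : ℕ => fun v : {v : List X // v.length = n} =>
      (⟨(f (g ^ m)).1 v.1, (len _ _).trans v.2⟩ : {v : List X // v.length = n}))
  have key : ∀ a b : ℕ, a < b → (∀ v : List X, v.length = n → (f (g ^ a)).1 v = (f (g ^ b)).1 v) →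
      ∃ m : ℕ, 0 < m ∧ g ^ m ∈ Lev f n := by
    intro a b hab h1
    refine ⟨b - a, by omega, fun v hv => ?_⟩
    have h2 : g ^ b = g ^ a * g ^ (b - a) := by
      rw [← pow_add]
      congr 1
      omega
    have h3 := h1 v hv
    rw [h2, map_mul] at h3
    change (f (g ^ a)).1 v = (f (g ^ a)).1 ((f (g ^ (b - a))).1 v) at h3
    exact ((f (g ^ a)).1.injective h3).symm
  have h' : ∀ v : List X, v.length = n → (f (g ^ i)).1 v = (f (g ^ j)).1 v := fun v hv =>
    congrArg Subtype.val (congrFun h ⟨v, hv⟩)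
  rcases lt_or_gt_of_ne hij with h1 | h1
  · exact key i j h1 h'
  · exact key j i h1 fun v hv => (h' v hv).symm

/-- more elements than values -/
theorem exists_cyl [Finite X] {N : Set (T X)} (hN : N.Finite) {n : ℕ} (v : List X)
    (hv : v.length = n) {I : Type} [Finite I] (e : I → F) (he : Function.Injective e)
    (hI : ∀ i, secw (toWr X) (f (e i)) v ∈ N) (hc : Nat.card X ^ n * N.ncard < Nat.card I) :
    ∃ h : F, h ≠ 1 ∧ h ∈ Cyl f v := by
  have := finite_words (X := X) n
  have : Finite N := hN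
  have hcw : Nat.card {v : List X // v.length = n} = Nat.card X ^ n := by
    have := Fintype.ofFinite X
    rw [Nat.card_eq_fintype_card (α := X), ← card_vector n, ← Nat.card_eq_fintype_card]
    rfl
  have hlt : Nat.card ({v : List X // v.length = n} × N) < Nat.card I := by
    rw [Nat.card_prod, hcw]
    exact hc
  have hni : ¬ Function.Injective (fun i : I =>
      ((⟨(f (e i)).1 v, (len _ _).trans hv⟩, ⟨_, hI i⟩) : {v : List X // v.length = n} × N)) := by
    intro hinj
    exact absurd (Nat.card_le_card_of_injective _ hinj) (not_le.2 hlt)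
  rw [Function.not_injective_iff] at hni
  obtain ⟨i, j, hij, hne⟩ := hni
  have h1 : (f (e i)).1 v = (f (e j)).1 v := congrArg (fun z => z.1.1) hij
  have h2 : secw (toWr X) (f (e i)) v = secw (toWr X) (f (e j)) v :=
    congrArg (fun z => z.2.1) hij
  have h3 : (f ((e i)⁻¹ * e j)).1 v = v := by
    rw [map_mul, map_inv]
    change (f (e i)).1⁻¹ ((f (e j)).1 v) = v
    rw [← h1]
    exact (f (e i)).1.symm_apply_apply v
  refine ⟨(e i)⁻¹ * e j, ?_, h3, ?_⟩
  · intro h
    rw [inv_mul_eq_one] at h
    exact hne (he h)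
  · have h4 := secw_mul (toWr X) (f (e i)) (f ((e i)⁻¹ * e j)) v
    rw [← map_mul, mul_inv_cancel_left, act_toWr, h3, h2] at h4
    exact (mul_eq_left.1 h4.symm)

end hom

/-! ## free groups -/

section free

variable {α : Type} (f : FreeGroup α →* T X)

theorem zpow_ne_one' {g : FreeGroup α} (hg : g ≠ 1) {s : ℤ} (hs : s ≠ 0) : g ^ s ≠ 1 := by
  intro h
  exact hg ((IsMulTorsionFree.zpow_eq_one_iff_left hs).1 h)

theorem all_cyl [Finite X] (n : ℕ)
    (h : ∀ v : List X, v.length = n → ∃ g : FreeGroup α, g ≠ 1 ∧ g ∈ Cyl f v)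
    (g₀ : FreeGroup α) (hg₀ : g₀ ≠ 1) (S : Finset (List X)) (hS : ∀ v ∈ S, v.length = n) :
    ∃ g : FreeGroup α, g ≠ 1 ∧ g ∈ Lev f n ∧ ∀ v ∈ S, g ∈ Cyl f v := by
  classical
  have hpow : ∀ g : FreeGroup α, g ≠ 1 → ∃ m : ℕ, g ^ m ≠ 1 ∧ g ^ m ∈ Lev f n := by
    intro g hg
    obtain ⟨m, hm, h1⟩ := pow_lev f n g
    refine ⟨m, ?_, h1⟩
    have h2 := zpow_ne_one' hg (s := (m : ℤ)) (by omega)
    rwa [zpow_natCast] at h2
  induction S using Finset.induction_on with
  | empty =>
    obtain ⟨m, h1, h2⟩ := hpow g₀ hg₀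
    exact ⟨g₀ ^ m, h1, h2, fun v hv => absurd hv (Finset.notMem_empty v)⟩
  | insert v S hvS ih =>
    obtain ⟨g, hg1, hg2, hg3⟩ := ih fun u hu => hS u (Finset.mem_insert_of_mem hu)
    have hv : v.length = n := hS v (Finset.mem_insert_self v S)
    obtain ⟨h₀, hh1, hh2⟩ := h v hv
    obtain ⟨m, hm1, hm2⟩ := hpow h₀ hh1
    have hm3 : h₀ ^ m ∈ Cyl f v := pow_mem hh2 m
    generalize h₀ ^ m = b at hm1 hm2 hm3
    by_cases hc : g * b = b * g
    · obtain ⟨s, t, hs, ht, hst⟩ := common_power g b hg1 hm1 hc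
      refine ⟨g ^ s, zpow_ne_one' hg1 hs, zpow_mem hg2 s, fun u hu => ?_⟩
      rcases Finset.mem_insert.1 hu with rfl | hu
      · rw [hst]
        exact zpow_mem hm3 t
      · exact zpow_mem (hg3 u hu) s
    · refine ⟨g * b * g⁻¹ * b⁻¹, ?_, ?_, fun u hu => ?_⟩
      · intro h1
        apply hc
        have h2 := mul_inv_eq_one.1 h1
        exact mul_inv_eq_iff_eq_mul.1 h2
      · exact mul_mem (mul_mem (mul_mem hg2 hm2) (inv_mem hg2)) (inv_mem hm2)
      · rcases Finset.mem_insert.1 hu with rfl | hu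
        · exact mul_mem (cyl_conj f hv hm3 hg2) (inv_mem hm3)
        · have h1 : g * b * g⁻¹ * b⁻¹ = g * (b * g⁻¹ * b⁻¹) := by group
          rw [h1]
          exact mul_mem (hg3 u hu)
            (cyl_conj f (hS u (Finset.mem_insert_of_mem hu)) (inv_mem (hg3 u hu)) hm2)

theorem not_injective_of [Finite X] (n : ℕ)
    (h : ∀ v : List X, v.length = n → ∃ g : FreeGroup α, g ≠ 1 ∧ g ∈ Cyl f v)
    (g₀ : FreeGroup α) (hg₀ : g₀ ≠ 1) : ¬ Function.Injective f := by
  classical
  intro hf
  have := finite_words (X := X) n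
  have hfin : {v : List X | v.length = n}.Finite := List.finite_length_eq X n
  obtain ⟨g, h1, h2, h3⟩ := all_cyl f n h g₀ hg₀ hfin.toFinset
    (fun v hv => by simpa using hv)
  apply h1
  apply hf
  rw [map_one]
  exact eq_one_of_level n (f g) h2 fun v hv => (h3 v (by simpa using hv)).2

end free

/-! ## counting -/

/-- a positive word -/
def pw (l : List Bool) : FreeGroup Bool := (l.map FreeGroup.of).prod

theorem pw_toWord (l : List Bool) : (pw l).toWord = l.map fun b => (b, true) := by
  have h1 : pw l = FreeGroup.mk (l.map fun b => (b, true)) := by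
    induction l with
    | nil => rfl
    | cons b l ih =>
      have h2 : pw (b :: l) = FreeGroup.of b * pw l := by
        rw [pw, List.map_cons, List.prod_cons]
        rfl
      rw [h2, ih]
      rfl
  rw [h1, FreeGroup.toWord_mk]
  apply FreeGroup.IsReduced.reduce_eq
  have h2 : ∀ m : List Bool, FreeGroup.IsReduced (m.map fun b => (b, true)) := by
    intro m
    induction m with
    | nil => exact FreeGroup.IsReduced.nil
    | cons b m ih =>
      cases m with
      | nil => exact FreeGroup.IsReduced.singleton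
      | cons c m => exact List.isChain_cons_cons.2 ⟨fun _ => rfl, ih⟩
  exact h2 l

theorem pw_injective : Function.Injective pw := by
  intro a b hab
  have h1 := congrArg FreeGroup.toWord hab
  rw [pw_toWord, pw_toWord] at h1
  exact (List.map_injective_iff.2 fun x y hxy => (Prod.mk.inj hxy).1) h1

theorem exists_j (A B : ℕ) : ∃ j : ℕ, A * j + B < 2 ^ j := by
  refine ⟨2 * (2 * A + B), ?_⟩
  have h1 : 2 * A + B < 2 ^ (2 * A + B) := Nat.lt_two_pow_self
  have h2 : 2 ^ (2 * (2 * A + B)) = 2 ^ (2 * A + B) * 2 ^ (2 * A + B) := by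
    rw [two_mul, pow_add]
  rw [h2]
  generalize 2 ^ (2 * A + B) = P at h1
  nlinarith

theorem exists_big (c M k l : ℕ) : ∃ j : ℕ, c ^ (k * j + l) * M < 2 ^ (2 ^ j) := by
  obtain ⟨j, hj⟩ := exists_j (c * k) (c * l + M)
  refine ⟨j, ?_⟩
  have h1 : c ^ (k * j + l) ≤ 2 ^ (c * (k * j + l)) := by
    rw [pow_mul]
    exact Nat.pow_le_pow_left (Nat.lt_two_pow_self).le _
  have h2 : M < 2 ^ M := Nat.lt_two_pow_self
  calc c ^ (k * j + l) * M ≤ 2 ^ (c * (k * j + l)) * 2 ^ M := Nat.mul_le_mul h1 h2.le
    _ = 2 ^ (c * (k * j + l) + M) := by rw [pow_add]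
    _ < 2 ^ (2 ^ j) := Nat.pow_lt_pow_right (by norm_num) (by nlinarith)

/-- **no free subgroups** -/
theorem no_free [Finite X] (N : Set (T X)) (hN : N.Finite)
    (hNN : ∀ a ∈ N, ∀ b ∈ N, ∃ k : ℕ, ∀ v : List X, k ≤ v.length → secw (toWr X) (a * b) v ∈ N)
    (f : FreeGroup Bool →* T X)
    (hf : ∀ g, ∃ k : ℕ, ∀ v : List X, k ≤ v.length → secw (toWr X) (f g) v ∈ N) :
    ¬ Function.Injective f := by
  classical
  -- the level for products
  obtain ⟨k, hk⟩ : ∃ k : ℕ, ∀ a ∈ N, ∀ b ∈ N, ∀ v : List X, k ≤ v.length →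
      secw (toWr X) (a * b) v ∈ N := by
    haveI := hN.fintype
    choose! κ hκ using hNN
    refine ⟨∑ a : N, ∑ b : N, κ a b, fun a ha b hb v hv => hκ a ha b hb v ?_⟩
    refine le_trans ?_ hv
    have h1 : κ a b ≤ ∑ b' : N, κ a b' :=
      Finset.single_le_sum (f := fun b' : N => κ a b') (fun _ _ => Nat.zero_le _)
        (Finset.mem_univ (⟨b, hb⟩ : N))
    exact h1.trans (Finset.single_le_sum (f := fun a' : N => ∑ b' : N, κ a' b')
      (fun _ _ => Nat.zero_le _) (Finset.mem_univ (⟨a, ha⟩ : N)))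
  obtain ⟨l, hl⟩ : ∃ l : ℕ, ∀ b : Bool, ∀ v : List X, l ≤ v.length →
      secw (toWr X) (f (FreeGroup.of b)) v ∈ N := by
    choose κ hκ using hf
    refine ⟨κ (FreeGroup.of true) + κ (FreeGroup.of false), fun b v hv => hκ _ v ?_⟩
    cases b <;> omega
  have hw : ∀ j : ℕ, ∀ w : List Bool, w.length = 2 ^ j → ∀ v : List X, k * j + l ≤ v.length →
      secw (toWr X) (f (pw w)) v ∈ N := by
    intro j
    induction j with
    | zero =>
      intro w hw v hv
      rw [pow_zero] at hw
      obtain ⟨b, rfl⟩ := List.length_eq_one_iff.1 hw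
      have h1 : pw [b] = FreeGroup.of b := by
        rw [pw, List.map_cons, List.map_nil, List.prod_cons, List.prod_nil, mul_one]
      rw [h1]
      exact hl b v (by omega)
    | succ j ih =>
      intro w hw v hv
      have h1 : pw w = pw (w.take (2 ^ j)) * pw (w.drop (2 ^ j)) := by
        rw [pw, pw, pw, ← List.prod_append, ← List.map_append, List.take_append_drop]
      have hl1 : (w.take (2 ^ j)).length = 2 ^ j := by
        rw [List.length_take, hw, pow_succ]
        omega
      have hl2 : (w.drop (2 ^ j)).length = 2 ^ j := by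
        rw [List.length_drop, hw, pow_succ]
        omega
      have hlen : k * j + l + k ≤ v.length := by
        have : k * (j + 1) + l = k * j + l + k := by ring
        omega
      have h2 : v = v.take (k * j + l) ++ v.drop (k * j + l) := (List.take_append_drop _ _).symm
      have hv1 : (v.take (k * j + l)).length = k * j + l := by
        rw [List.length_take]
        omega
      have hv2 : k ≤ (v.drop (k * j + l)).length := by
        rw [List.length_drop]
        omega
      rw [h2, secw_append, h1, map_mul, secw_mul]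
      refine hk _ (ih _ hl1 _ ?_) _ (ih _ hl2 _ hv1.ge) _ hv2
      rw [act_toWr, len, hv1]
  obtain ⟨j, hj⟩ := exists_big (Nat.card X) N.ncard k l
  refine not_injective_of f (k * j + l) (fun v hv => ?_) (FreeGroup.of true)
    (FreeGroup.of_ne_one true)
  have : Finite {w : List Bool // w.length = 2 ^ j} := finite_words (X := Bool) (2 ^ j)
  refine exists_cyl f hN v hv (I := {w : List Bool // w.length = 2 ^ j}) (fun w => pw w.1)
    (fun a b hab => Subtype.ext (pw_injective hab)) (fun w => hw j w.1 w.2 v hv.ge) ?_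
  have hcw : Nat.card {w : List Bool // w.length = 2 ^ j} = 2 ^ (2 ^ j) := by
    have h1 : Nat.card {w : List Bool // w.length = 2 ^ j} = Fintype.card (List.Vector Bool (2 ^ j)) := by
      rw [← Nat.card_eq_fintype_card]
      rfl
    rw [h1, card_vector, Fintype.card_bool]
  rw [hcw]
  exact hj

end Pool.Agent.U9.CG
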