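import Pool.Agent.U863.CT.TorsQ2
import Pool.Agent.U863.CT.GFin
import Pool.Agent.U9.CG.Free

/-!
# Contracting recursions: no free subgroups

Owner helper9.
-/

set_option autoImplicit false

namespace Pool.Agent.U9.CG

open Pool.Agent.Y462.SS Pool.Agent.U863.CT

variable {X : Type}

/-- levels with finitely many words: a common bound -/
theorem common_bound [Finite X] (n : ℕ) (P : List X → ℕ → Prop)
    (hP : ∀ v : List X, v.length = n → ∃ k, ∀ m, k ≤ m → P v m) :
    ∃ k, ∀ v : List X, v.length = n → ∀ m, k ≤ m → P v m := by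
  classical
  have := finite_words (X := X) n
  have : Fintype {v : List X // v.length = n} := Fintype.ofFinite _
  choose κ hκ using fun v : {v : List X // v.length = n} => hP v.1 v.2
  refine ⟨∑ v, κ v, fun v hv m hm => hκ ⟨v, hv⟩ m (le_trans ?_ hm)⟩
  exact Finset.single_le_sum (f := κ) (fun _ _ => Nat.zero_le _)
    (Finset.mem_univ (⟨v, hv⟩ : {v : List X // v.length = n}))

/-- the group `G` has its sections in `N` eventually; `K` has its sections in `G` at some level -/
theorem not_free [Finite X] (G : Subgroup (T X)) (N : Set (T X)) (hN : N.Finite)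
    (hNG : ∀ a ∈ N, a ∈ G)
    (hG : ∀ g ∈ G, ∃ k : ℕ, ∀ v : List X, k ≤ v.length → secw (toWr X) g v ∈ N)
    (K : Subgroup (T X)) (hK : ∀ g ∈ K, ∃ n : ℕ, ∀ v : List X, v.length = n →
      secw (toWr X) g v ∈ G) :
    ¬ ∃ f : FreeGroup (Fin 2) →* K, Function.Injective f := by
  rintro ⟨f, hf⟩
  have hKN : ∀ g ∈ K, ∃ k : ℕ, ∀ v : List X, k ≤ v.length → secw (toWr X) g v ∈ N := by
    intro g hg
    obtain ⟨n, hn⟩ := hK g hg
    obtain ⟨k, hk⟩ := common_bound n
      (fun v m => ∀ w : List X, m ≤ w.length → secw (toWr X) (secw (toWr X) g v) w ∈ N) (by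
        intro v hv
        obtain ⟨k, hk⟩ := hG _ (hn v hv)
        exact ⟨k, fun m hm w hw => hk w (hm.trans hw)⟩)
    refine ⟨n + k, fun v hv => ?_⟩
    have h1 : v = v.take n ++ v.drop n := (List.take_append_drop _ _).symm
    rw [h1, secw_append]
    refine hk (v.take n) ?_ k le_rfl (v.drop n) ?_
    · rw [List.length_take]
      omega
    · rw [List.length_drop]
      omega
  have e : Bool ≃ Fin 2 := finTwoEquiv.symm
  refine no_free N hN (fun a ha b hb => hG _ (mul_mem (hNG a ha) (hNG b hb)))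
    (K.subtype.comp (f.comp (FreeGroup.map e))) (fun g => hKN _ (f (FreeGroup.map e g)).2) ?_
  rw [MonoidHom.coe_comp, MonoidHom.coe_comp]
  exact Subtype.val_injective.comp (hf.comp (FreeGroup.map_injective e.injective))

/-- contracting recursions -/
theorem not_free_range [Finite X] {Γ : Type} [Group Γ] (ψ : Γ →* Wr X Γ) (hψ : Contracting ψ)
    (K : Subgroup (T X)) (hK : ∀ g ∈ K, ∃ n : ℕ, ∀ v : List X, v.length = n →
      secw (toWr X) g v ∈ (tau ψ).range) :
    ¬ ∃ f : FreeGroup (Fin 2) →* K, Function.Injective f := by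
  obtain ⟨M, hM, h⟩ := hψ
  refine not_free (tau ψ).range (tau ψ '' M) (hM.image _) ?_ ?_ K hK
  · rintro _ ⟨a, -, rfl⟩
    exact ⟨a, rfl⟩
  · rintro _ ⟨γ, rfl⟩
    obtain ⟨k, hk⟩ := h γ
    refine ⟨k, fun v hv => ?_⟩
    rw [← tau_secw]
    exact ⟨_, hk v hv, rfl⟩

theorem secw_auto {N : Set (T X)} (hN : Auto N) {a : T X} (ha : a ∈ N) (v : List X) :
    secw (toWr X) a v ∈ N := by
  induction v generalizing a with
  | nil => exact ha
  | cons x v ih => exact ih (hN.sec a ha x)

theorem not_free_auto [Finite X] (N : Set (T X)) (hNf : N.Finite) (hN : Auto N)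
    (K : Subgroup (T X)) (hK : ∀ g ∈ K, ∃ n : ℕ, ∀ v : List X, v.length = n →
      secw (toWr X) g v ∈ Subgroup.closure N) :
    ¬ ∃ f : FreeGroup (Fin 2) →* K, Function.Injective f := by
  classical
  obtain ⟨k, hk⟩ : ∃ k : ℕ, ∀ a ∈ N, ∀ b ∈ N, ∀ v : List X, k ≤ v.length →
      secw (toWr X) (a * b) v ∈ N := by
    have := hNf.fintype
    have h0 := hN.contr
    choose! κ hκ using h0
    have h1 : ∀ a ∈ N, ∀ b ∈ N, ∀ v : List X, κ a b ≤ v.length →
        secw (toWr X) (a * b) v ∈ N := by
      intro a ha b hb v hv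
      have h2 : v = v.take (κ a b) ++ v.drop (κ a b) := (List.take_append_drop _ _).symm
      rw [h2, secw_append]
      refine secw_auto hN (hκ a ha b hb _ ?_) _
      rw [List.length_take]
      omega
    refine ⟨∑ a : N, ∑ b : N, κ a b, fun a ha b hb v hv => h1 a ha b hb v ?_⟩
    refine le_trans ?_ hv
    have h1 : κ a b ≤ ∑ b' : N, κ a b' :=
      Finset.single_le_sum (f := fun b' : N => κ a b') (fun _ _ => Nat.zero_le _)
        (Finset.mem_univ (⟨b, hb⟩ : N))
    exact h1.trans (Finset.single_le_sum (f := fun a' : N => ∑ b' : N, κ a' b')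
      (fun _ _ => Nat.zero_le _) (Finset.mem_univ (⟨a, ha⟩ : N)))
  refine not_free (Subgroup.closure N) N hNf (fun a ha => Subgroup.subset_closure ha) ?_ K hK
  intro g hg
  induction hg using Subgroup.closure_induction with
  | mem a ha => exact ⟨0, fun v _ => secw_auto hN ha v⟩
  | one =>
    refine ⟨0, fun v _ => ?_⟩
    rw [secw_one]
    exact hN.one
  | mul a b _ _ iha ihb =>
    obtain ⟨i, hi⟩ := iha
    obtain ⟨j, hj⟩ := ihb
    refine ⟨max i j + k, fun v hv => ?_⟩
    have h2 : v = v.take (max i j) ++ v.drop (max i j) := (List.take_append_drop _ _).symm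
    have h3 : (v.take (max i j)).length = max i j := by
      rw [List.length_take]
      omega
    rw [h2, secw_append, secw_mul]
    refine hk _ (hi _ ?_) _ (hj _ ?_) _ ?_
    · rw [act_toWr, len, h3]
      exact le_max_left i j
    · rw [h3]
      exact le_max_right i j
    · rw [List.length_drop]
      omega
  | inv a _ iha =>
    obtain ⟨i, hi⟩ := iha
    refine ⟨i, fun v hv => ?_⟩
    have h4 := secw_inv a (act (toWr X) a⁻¹ v)
    have h5 : act (toWr X) a (act (toWr X) a⁻¹ v) = v := by
      rw [act_toWr, act_toWr]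
      exact (a.1).apply_symm_apply v
    rw [h5] at h4
    rw [← h4]
    refine hN.inv _ (hi _ ?_)
    rw [act_toWr, len]
    exact hv

end Pool.Agent.U9.CG
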